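import Pool.Agent.T2H72.PG.Neg

/-!
# A projectional generator whose domain carries no generator with the strengthened annihilator condition

(MP_132384_an, Q1: the answer is no.)

Let `T` be the tree of all functions from ordinals `≤ ω_1` to `ℝ`, `X = ℓ_1(T)`, and let `Y ⊆ ℓ_∞(T) = X*` be the
space of the functions `f` for which there is a countable `S ⊆ T` such that `f(s)` depends only on
`{q ∈ S | s ≤ q}` (and is `0` if this set is empty). For `f ∈ Y` let `Φ(f)` be the set of the unit vectors at the
meets of two elements of `S`. Then `(Y, Φ)` is a projectional generator. For every map `Φ` from `Y` to the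
countable subsets of `X` there are branches `t_n` through different immediate successors of a node `r`, a limit
ordinal `μ` below the length of `r` and `ν_n ↑ μ` such that the elements of `Φ(1_(t_n|ν_n, t_n])` have no
coordinates on `[r|μ, r]`; but `1_(t_n|ν_n, t_n]` converges pointwise to `1_[r|μ, r]`.
-/

set_option autoImplicit false

open Set Topology Filter Pool.Agent.T2H72.PG

namespace Pool.Agent.Results.MP_132384_an.TreeCounterexample

/-- **Negative answer to Q1.** There are a real Banach space `X` and a subspace `Y` of `X*` such that `X` admits a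
projectional generator with domain `Y`, but no projectional generator with domain `Y` satisfies the
strengthened condition. Moreover `Y` contains the weak-star closures of its countable subsets, and for every map
`Φ` whose values on `Y` are countable sets there is a countable `M ⊆ Y` such that already the weak-star
closure of `M` contains a nonzero element of `Φ(M)^⊥`. -/
theorem result :
    ∃ (X : Type) (_ : NormedAddCommGroup X) (_ : NormedSpace ℝ X) (_ : CompleteSpace X)
      (Y : Submodule ℝ (X →L[ℝ] ℝ)),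
      (∃ Φ : (X →L[ℝ] ℝ) → Set X, IsProjectionalGenerator Y Φ) ∧
      (¬ ∃ Φ : (X →L[ℝ] ℝ) → Set X, IsProjectionalGenerator Y Φ ∧ IsStrengthened Y Φ) ∧
      (∀ C : Set (X →L[ℝ] ℝ), C.Countable → C ⊆ Y → ∀ f, InWeakStarClosure C f → f ∈ Y) ∧
      ∀ Φ : (X →L[ℝ] ℝ) → Set X, (∀ f ∈ Y, (Φ f).Countable) →
        ∃ M : Set (X →L[ℝ] ℝ), M.Countable ∧ M ⊆ Y ∧ ∃ g : X →L[ℝ] ℝ, g ≠ 0 ∧
          InWeakStarClosure M g ∧ ∀ f ∈ M, ∀ x ∈ Φ f, g x = 0 := by
  have key : ∀ Φ : (L1 Node →L[ℝ] ℝ) → Set (L1 Node), (∀ f ∈ Dom Node, (Φ f).Countable) →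
      ∃ M : Set (L1 Node →L[ℝ] ℝ), M.Countable ∧ M ⊆ Dom Node ∧ ∃ g : L1 Node →L[ℝ] ℝ, g ≠ 0 ∧
        InWeakStarClosure M g ∧ ∀ f ∈ M, ∀ x ∈ Φ f, g x = 0 := by
    intro Φ hΦ
    obtain ⟨ν, t, G, hG, hlim, hz⟩ := failure Φ fun ν t => hΦ _ (seg_mem ν t)
    refine ⟨range fun n => seg (ν n) (t n), countable_range _, ?_, G, hG,
      closure_of_tendsto _ (fun n => mem_range_self n) hlim, ?_⟩
    · rintro _ ⟨n, rfl⟩
      exact seg_mem _ _
    · rintro _ ⟨n, rfl⟩
      exact hz n
  refine ⟨L1 Node, inferInstance, inferInstance, inferInstance, Dom Node,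
    ⟨Phi, generator isTree le_rfl norming⟩, ?_, fun C hC hCD f hf => dom_closed hC hCD hf, key⟩
  rintro ⟨Φ, hgen, hstr⟩
  obtain ⟨M, -, hM, g, hg0, hg, hgM⟩ := key Φ hgen.2.1
  exact hg0 (hstr M hM g (inWeakStarClosure_mono Submodule.subset_span hg) hgM)

end Pool.Agent.Results.MP_132384_an.TreeCounterexample
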